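import Mathlib
import Pool.Agent.Lib.MP_b68431_pr.ZeroOne

set_option autoImplicit false

open MeasureTheory ProbabilityTheory
open scoped ENNReal
open Pool.Agent.Lib.MP_b68431_pr

namespace Pool.Agent.Results.MP_b68431_pr.OneEnded

/-- There is a quasi-symmetric, irreducible, nearest-neighbour, non-amenable random walk on an
infinite connected locally finite graph whose critical branching random walk (with `μ 0 = 0`) has an
almost surely one-ended trace, from every starting vertex. -/
theorem result :
    ∃ (V : Type) (_ : MeasurableSpace V) (_ : DiscreteMeasurableSpace V) (_ : Countable V)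
      (G : SimpleGraph V) (P : V → PMF V) (μ : PMF ℕ) (ρ : ℝ≥0∞),
      Infinite V ∧ G.Connected ∧ (∀ v, (G.neighborSet v).Finite) ∧
      (∀ v w, P v w ≠ 0 ↔ G.Adj v w) ∧ Irred P ∧ QuasiSymmetric P ∧
      (∀ v w, spectralRadius P v w = ρ) ∧ ρ < 1 ∧
      μ 0 = 0 ∧ mean μ = ρ⁻¹ ∧
      ∀ i : V, ∀ᵐ ω ∂(brwLaw P μ), numEnds (trace ω i) = 1 := by
  refine ⟨Vx, inferInstance, inferInstance, inferInstance, G, K, mu, 4 / 5, inferInstance,
    G_connected, G_locallyFinite, K_ne_zero_iff, K_irred, K_quasiSymmetric, spectral_eq, ?_,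
    mu_zero, mean_mu_inv, ae_one_ended⟩
  rw [← ofReal_45, ENNReal.ofReal_lt_one]
  norm_num

end Pool.Agent.Results.MP_b68431_pr.OneEnded
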